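import Pool.Agent.H22.FOT.Defs2

/-!
# Board fog, rows FOR and CLS: leaf edges and shortest cycles
-/

set_option autoImplicit false

open Set

namespace Pool.FOT

namespace Cls45

variable {V : Type} {A : Finset (Sym2 V)}

/-- `p 0, ..., p k` is a path in `A`. -/
def Pa (A : Finset (Sym2 V)) (k : ℕ) (p : ℕ → V) : Prop :=
  InjOn p (Iic k) ∧ ∀ i, i < k → s(p i, p (i + 1)) ∈ A

theorem pa_le [Fintype V] {k : ℕ} {p : ℕ → V} (h : Pa A k p) : k + 1 ≤ Fintype.card V := by
  classical
  have h1 : (Finset.range (k + 1)).card ≤ (Finset.univ : Finset V).card := by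
    refine Finset.card_le_card_of_injOn p (fun _ _ => Finset.mem_univ _) ?_
    intro a ha b hb hab
    rw [Finset.mem_coe, Finset.mem_range] at ha hb
    exact h.1 (mem_Iic.2 (by omega)) (mem_Iic.2 (by omega)) hab
  rwa [Finset.card_range] at h1

theorem pa_max [Fintype V] [Nonempty V] (A : Finset (Sym2 V)) :
    ∃ (k : ℕ) (p : ℕ → V), Pa A k p ∧ ∀ (k' : ℕ) (p' : ℕ → V), Pa A k' p' → k' ≤ k := by
  classical
  have h0 : ∃ k, ∃ p, Pa A k p := by
    obtain ⟨v⟩ := ‹Nonempty V›
    refine ⟨0, fun _ => v, ?_, fun i hi => absurd hi (Nat.not_lt_zero i)⟩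
    intro a ha b hb _
    rw [mem_Iic] at ha hb
    omega
  obtain ⟨k0, hk0⟩ := h0
  obtain ⟨p, hp⟩ : ∃ p, Pa A (Nat.findGreatest (fun k => ∃ p, Pa A k p) (Fintype.card V)) p :=
    Nat.findGreatest_spec (P := fun k => ∃ p, Pa A k p) (m := k0)
      (by obtain ⟨p, hp⟩ := hk0; have := pa_le hp; omega) hk0
  refine ⟨_, p, hp, fun k' p' h' => ?_⟩
  refine Nat.le_findGreatest ?_ ⟨p', h'⟩
  have := pa_le h'
  omega

/-- A path whose ends are joined. -/
theorem cyc_of {k : ℕ} {p : ℕ → V} (h : Pa A (k + 2) p) (hc : s(p (k + 2), p 0) ∈ A) :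
    CycIn A k (fun i => p i) := by
  refine ⟨?_, fun i => ?_⟩
  · intro i j hij
    exact Fin.ext (h.1 (mem_Iic.2 (by omega)) (mem_Iic.2 (by omega)) hij)
  · rcases Nat.lt_or_ge i.val (k + 2) with hi | hi
    · have h1 : ((i + 1 : Fin (k + 3)) : ℕ) = i.val + 1 := by
        rw [Fin.val_add_one_of_lt]
        rw [Fin.lt_def, Fin.val_last]
        exact hi
      change s(p i, p ((i + 1 : Fin (k + 3)) : ℕ)) ∈ A
      rw [h1]
      exact h.2 _ hi
    · have h1 : i = Fin.last (k + 2) := Fin.ext (by rw [Fin.val_last]; omega)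
      change s(p i, p ((i + 1 : Fin (k + 3)) : ℕ)) ∈ A
      rw [h1, Fin.last_add_one]
      exact hc

theorem pa_rev {k : ℕ} {p : ℕ → V} (h : Pa A k p) : Pa A k (fun i => p (k - i)) := by
  refine ⟨?_, fun i hi => ?_⟩
  · intro a ha b hb hab
    rw [mem_Iic] at ha hb
    have := h.1 (mem_Iic.2 (by omega : k - a ≤ k)) (mem_Iic.2 (by omega : k - b ≤ k)) hab
    omega
  · have h1 := h.2 (k - (i + 1)) (by omega)
    have h2 : k - (i + 1) + 1 = k - i := by omega
    rw [h2] at h1
    change s(p (k - i), p (k - (i + 1))) ∈ A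
    rw [Sym2.eq_swap]
    exact h1

/-- Adding a vertex in front. -/
theorem pa_cons {k : ℕ} {p : ℕ → V} {u : V} (h : Pa A k p) (hu : ∀ j, j ≤ k → p j ≠ u)
    (he : s(u, p 0) ∈ A) : Pa A (k + 1) (fun i => if i = 0 then u else p (i - 1)) := by
  refine ⟨?_, fun i hi => ?_⟩
  · intro a ha b hb hab
    rw [mem_Iic] at ha hb
    simp only at hab
    split_ifs at hab with h1 h2 h2
    · omega
    · exact absurd hab.symm (hu _ (by omega))
    · exact absurd hab (hu _ (by omega))
    · have := h.1 (mem_Iic.2 (by omega : a - 1 ≤ k)) (mem_Iic.2 (by omega : b - 1 ≤ k)) hab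
      omega
  · rcases Nat.eq_zero_or_pos i with h0 | h0
    · subst h0
      exact he
    · have h1 : i ≠ 0 := by omega
      have h2 : i + 1 ≠ 0 := by omega
      change s(if i = 0 then u else p (i - 1), if i + 1 = 0 then u else p (i + 1 - 1)) ∈ A
      rw [if_neg h1, if_neg h2, Nat.add_sub_cancel]
      have h3 := h.2 (i - 1) (by omega)
      rwa [Nat.sub_add_cancel h0] at h3

/-- The first edge of a longest path. -/
theorem leaf {k : ℕ} {p : ℕ → V} (hd : ∀ e ∈ A, ¬ e.IsDiag) (h : Pa A k p) (_ : 1 ≤ k)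
    (hm : ∀ (k' : ℕ) (p' : ℕ → V), Pa A k' p' → k' ≤ k)
    (hno : ∀ (n : ℕ) (c : Fin (n + 3) → V), ¬ CycIn A n c) :
    ∀ e ∈ A, p 0 ∈ e → e = s(p 0, p 1) := by
  intro e he h0
  obtain ⟨u, rfl⟩ := h0
  by_cases hu : ∃ j, j ≤ k ∧ p j = u
  · obtain ⟨j, hj, rfl⟩ := hu
    rcases Nat.lt_or_ge j 2 with h2 | h2
    · rcases Nat.eq_zero_or_pos j with h3 | h3
      · subst h3
        exact absurd (Sym2.mk_isDiag_iff.2 rfl) (hd _ he)
      · have : j = 1 := by omega
        rw [this]
    · obtain ⟨m, rfl⟩ : ∃ m, j = m + 2 := ⟨j - 2, by omega⟩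
      refine absurd (cyc_of (k := m) (p := p) ⟨h.1.mono (Iic_subset_Iic.2 hj),
        fun i hi => h.2 i (by omega)⟩ ?_) (hno m _)
      rw [Sym2.eq_swap]
      exact he
  · rw [not_exists] at hu
    have h1 := pa_cons (u := u) h (fun j hj hj' => hu j ⟨hj, hj'⟩) (by
      rw [Sym2.eq_swap]
      exact he)
    have := hm _ _ h1
    omega

end Cls45

open Cls45

/-- FOR. -/
theorem t_for : FORStmt := by
  intro V _ _ A hd hA hno
  obtain ⟨e, he, e', he', hne⟩ := Finset.one_lt_card.1 (by omega : 1 < A.card)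
  have hV : Nonempty V := ⟨(Quot.out e).1⟩
  obtain ⟨k, p, hp, hm⟩ := pa_max A
  have e1 : ∀ v w : V, s(v, w) ∈ A → v ≠ w := fun v w h hvw => hd _ h (Sym2.mk_isDiag_iff.2 hvw)
  have hp1 : ∀ v w : V, s(v, w) ∈ A → Pa A 1 (fun i => if i = 0 then v else w) := by
    intro v w h
    refine ⟨?_, fun i hi => ?_⟩
    · intro a ha b hb hab
      rw [mem_Iic] at ha hb
      simp only at hab
      split_ifs at hab with h1 h2 h2
      · omega
      · exact absurd hab (e1 v w h)
      · exact absurd hab.symm (e1 v w h)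
      · omega
    · have : i = 0 := by omega
      subst this
      exact h
  rcases Nat.lt_or_ge k 2 with h2 | h2
  · -- longest path has at most one edge
    have key : ∀ v w : V, s(v, w) ∈ A → ∀ e ∈ A, v ∈ e → e = s(v, w) := by
      intro v w h e he hv
      obtain ⟨u, rfl⟩ := hv
      by_contra hcon
      have huw : u ≠ w := fun h => hcon (by rw [h])
      have h3 := pa_cons (u := u) (hp1 v w h) (fun j hj => by
        rcases Nat.eq_zero_or_pos j with h4 | h4
        · rw [if_pos h4]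
          exact e1 v u he
        · rw [if_neg (by omega)]
          exact huw.symm) (by
        rw [if_pos rfl, Sym2.eq_swap]
        exact he)
      have := hm _ _ h3
      omega
    induction e using Sym2.ind with
    | h v w =>
      induction e' using Sym2.ind with
      | h v' w' =>
        exact ⟨v, w, v', w', he, he', hne, key v w he, key v' w' he'⟩
  · have hr := pa_rev hp
    have l1 := leaf hd hp (by omega) hm hno
    have l2 := leaf hd hr (by omega) hm hno
    simp only [Nat.sub_zero] at l2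
    refine ⟨p 0, p 1, p k, p (k - 1), hp.2 0 (by omega), hr.2 0 (by omega), ?_, l1, l2⟩
    intro h
    rcases Sym2.eq_iff.1 h with ⟨h3, -⟩ | ⟨h3, -⟩
    · have := hp.1 (mem_Iic.2 (by omega)) (mem_Iic.2 le_rfl) h3
      omega
    · have := hp.1 (mem_Iic.2 (by omega)) (mem_Iic.2 (by omega)) h3
      omega

namespace Cls45

variable {V : Type} {A : Finset (Sym2 V)}

/-- The vertices of a cycle, periodic. -/
def per {n : ℕ} (c : Fin (n + 3) → V) (t : ℕ) : V :=
  c ⟨t % (n + 3), Nat.mod_lt _ (Nat.succ_pos _)⟩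

theorem per_val {n : ℕ} (c : Fin (n + 3) → V) (i : Fin (n + 3)) : per c i.val = c i := by
  unfold per
  congr 1
  exact Fin.ext (Nat.mod_eq_of_lt i.2)

theorem per_add {n : ℕ} (c : Fin (n + 3) → V) (i : Fin (n + 3)) (m : Fin (n + 3)) :
    per c (i.val + m.val) = c (i + m) := by
  unfold per
  exact congrArg c (Fin.ext (Fin.val_add i m).symm)

/-- A part of a cycle is a path. -/
theorem pa_per {n : ℕ} {c : Fin (n + 3) → V} (h : CycIn A n c) (a m : ℕ) (hm : m ≤ n + 2) :
    Pa A m (fun t => per c (a + t)) := by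
  refine ⟨?_, fun i _ => ?_⟩
  · intro x hx y hy hxy
    rw [mem_Iic] at hx hy
    have h1 := h.1 hxy
    rw [Fin.mk.injEq] at h1
    have h2 : a + x ≡ a + y [MOD (n + 3)] := h1
    have h3 := Nat.ModEq.add_left_cancel' a h2
    have h4 : x % (n + 3) = y % (n + 3) := h3
    rwa [Nat.mod_eq_of_lt (by omega), Nat.mod_eq_of_lt (by omega)] at h4
  · have h1 := h.2 ⟨(a + i) % (n + 3), Nat.mod_lt _ (Nat.succ_pos _)⟩
    have h2 : (⟨(a + (i + 1)) % (n + 3), Nat.mod_lt _ (Nat.succ_pos _)⟩ : Fin (n + 3)) =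
        ⟨(a + i) % (n + 3), Nat.mod_lt _ (Nat.succ_pos _)⟩ + 1 := by
      apply Fin.ext
      rw [Fin.val_add, Fin.val_one]
      change (a + (i + 1)) % (n + 3) = ((a + i) % (n + 3) + 1) % (n + 3)
      rw [Nat.mod_add_mod, add_assoc]
    change s(c ⟨(a + i) % (n + 3), Nat.mod_lt _ (Nat.succ_pos _)⟩,
      c ⟨(a + (i + 1)) % (n + 3), Nat.mod_lt _ (Nat.succ_pos _)⟩) ∈ A
    rw [h2]
    exact h1

end Cls45

/-- CLS. -/
theorem t_cls : CLSStmt := by
  intro V _ _ A r hr hd hA hcyc
  classical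
  have e1 : ∀ v w : V, s(v, w) ∈ A → v ≠ w := fun v w h hvw => hd _ h (Sym2.mk_isDiag_iff.2 hvw)
  by_cases hno : ∀ (n : ℕ) (c : Fin (n + 3) → V), ¬ CycIn A n c
  · exact Or.inl (t_for V A hd (by omega) hno)
  right
  have hex : ∃ n, ∃ c : Fin (n + 3) → V, CycIn A n c := by
    by_contra hcon
    exact hno fun n c hc => hcon ⟨n, c, hc⟩
  obtain ⟨n, ⟨c, hc⟩, hmin⟩ : ∃ n, (∃ c : Fin (n + 3) → V, CycIn A n c) ∧
      ∀ m, m < n → ¬ ∃ c : Fin (m + 3) → V, CycIn A m c :=
    ⟨Nat.find hex, Nat.find_spec hex, fun m hm => Nat.find_min hex hm⟩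
  have hch : Chordless A n c := by
    intro i j hij
    obtain ⟨m, hm⟩ : ∃ m : Fin (n + 3), m = j - i := ⟨_, rfl⟩
    have hj : j = i + m := by rw [hm]; abel
    have hm0 : m.val ≠ 0 := by
      intro h0
      have h1 : m = 0 := Fin.ext h0
      rw [h1, add_zero] at hj
      exact e1 _ _ hij (by rw [hj])
    rcases Nat.lt_or_ge m.val 2 with h2 | h2
    · left
      have h1 : m = 1 := by
        apply Fin.ext
        rw [Fin.val_one]
        omega
      rw [hj, h1]
    rcases Nat.lt_or_ge m.val (n + 2) with h3 | h3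
    · exfalso
      obtain ⟨k, hk⟩ : ∃ k, m.val = k + 2 := ⟨m.val - 2, by omega⟩
      have h4 := pa_per hc i.val (k + 2) (by omega)
      refine hmin k (by omega) ⟨_, cyc_of h4 ?_⟩
      rw [← hk, per_add, ← hj, Nat.add_zero, per_val, Sym2.eq_swap]
      exact hij
    · right
      have h1 : m = Fin.last (n + 2) := Fin.ext (by rw [Fin.val_last]; have := m.2; omega)
      rw [hj, h1, add_assoc, Fin.last_add_one, add_zero]
  refine ⟨n, c, hc, hch, ?_⟩
  rcases Nat.lt_or_ge (2 * r) (n + 3) with h2 | h2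
  · exact Or.inl h2
  have h2r := hcyc n c hc
  have h3 : 2 * r = n + 3 := le_antisymm h2r h2
  refine Or.inr ⟨h3, ?_⟩
  by_cases hA1 : A = Finset.univ.image (fun i => s(c i, c (i + 1)))
  · exact Or.inl hA1
  right
  by_cases hA2 : ∃ a b : V, a ∉ range c ∧ b ∉ range c ∧ s(a, b) ∈ A
  · exact Or.inl hA2
  right
  -- an edge which is not in the cycle
  obtain ⟨e, heA, hec⟩ : ∃ e ∈ A, e ∉ Finset.univ.image (fun i => s(c i, c (i + 1))) := by
    by_contra hcon
    apply hA1
    apply Finset.Subset.antisymm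
    · intro e he
      by_contra h4
      exact hcon ⟨e, he, h4⟩
    · intro e he
      obtain ⟨i, -, rfl⟩ := Finset.mem_image.1 he
      exact hc.2 i
  have hedge : ∀ i j : Fin (n + 3), s(c i, c j) ∈ A →
      s(c i, c j) ∈ Finset.univ.image (fun i => s(c i, c (i + 1))) := by
    intro i j hij
    rcases hch i j hij with h4 | h4
    · rw [h4]
      exact Finset.mem_image_of_mem _ (Finset.mem_univ i)
    · rw [h4, Sym2.eq_swap]
      exact Finset.mem_image_of_mem _ (Finset.mem_univ j)
  obtain ⟨i, b, hb, hib⟩ : ∃ (i : Fin (n + 3)) (b : V), b ∉ range c ∧ s(c i, b) ∈ A := by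
    induction e using Sym2.ind with
    | h x y =>
      by_cases hx : x ∈ range c
      · obtain ⟨i, rfl⟩ := hx
        by_cases hy : y ∈ range c
        · obtain ⟨j, rfl⟩ := hy
          exact absurd (hedge i j heA) hec
        · exact ⟨i, y, hy, heA⟩
      · by_cases hy : y ∈ range c
        · obtain ⟨j, rfl⟩ := hy
          refine ⟨j, x, hx, ?_⟩
          rw [Sym2.eq_swap]
          exact heA
        · exact absurd ⟨x, y, hx, hy, heA⟩ hA2
  by_cases hleaf : ∀ e ∈ A, b ∈ e → e = s(c i, b)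
  · exact Or.inl ⟨i, b, hb, hib, hleaf⟩
  right
  -- a second neighbour of `b`
  obtain ⟨j, hjb, hij⟩ : ∃ j : Fin (n + 3), s(c j, b) ∈ A ∧ i ≠ j := by
    by_contra hcon
    apply hleaf
    intro e he hbe
    obtain ⟨x, rfl⟩ := hbe
    by_cases hx : x ∈ range c
    · obtain ⟨j, rfl⟩ := hx
      by_cases hij : i = j
      · rw [hij, Sym2.eq_swap]
      · refine absurd ⟨j, ?_, hij⟩ hcon
        rw [Sym2.eq_swap]
        exact he
    · exact absurd ⟨b, x, hb, hx, he⟩ hA2
  -- the lengths of the two cycles through `b`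
  have hlen : ∀ i j : Fin (n + 3), s(c i, b) ∈ A → s(c j, b) ∈ A → i ≠ j →
      n + 1 ≤ (j - i).val := by
    intro i j hi hj hne
    have h4 : (j - i).val ≠ 0 := by
      intro h0
      have h1 : j - i = 0 := Fin.ext h0
      exact hne (sub_eq_zero.1 h1).symm
    obtain ⟨k, hk⟩ : ∃ k, (j - i).val = k + 1 := ⟨(j - i).val - 1, by omega⟩
    have h5 : k + 1 ≤ n + 2 := by have := (j - i).2; omega
    have h6 := pa_per hc i.val (k + 1) h5
    have h7 := pa_cons (u := b) h6 (fun t _ ht => hb ⟨_, ht⟩) (by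
      rw [Nat.add_zero, per_val, Sym2.eq_swap]
      exact hi)
    have h8 := hcyc k _ (cyc_of h7 (by
      rw [if_neg (by omega : k + 2 ≠ 0), if_pos rfl]
      have h9 : k + 2 - 1 = (j - i).val := by omega
      rw [h9, per_add, add_sub_cancel]
      exact hj))
    omega
  have hl1 := hlen i j hib hjb hij
  have hl2 := hlen j i hjb hib hij.symm
  have hl3 : (j - i).val + (i - j).val = n + 3 := by
    have h4 : i - j = -(j - i) := by abel
    have h5 : (j - i) ≠ 0 := by
      intro h0
      exact hij (sub_eq_zero.1 h0).symm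
    rw [h4]
    have h6 : ((-(j - i) : Fin (n + 3))).val = n + 3 - (j - i).val := by
      rw [Fin.val_neg, if_neg h5]
    have := (j - i).2
    omega
  have hn : n = 1 := by omega
  subst hn
  have hr2 : r = 2 := by omega
  have hj : j = i + 2 := by
    have h4 : (j - i).val = 2 := by omega
    have h5 : j - i = 2 := Fin.ext h4
    rw [← h5]
    abel
  have tri : ∀ x y : V, s(x, y) ∈ A → s(x, b) ∈ A → s(y, b) ∈ A → False := by
    intro x y hxy hxb hyb
    have h4 : Pa A 2 (fun t => if t = 0 then x else if t = 1 then y else b) := by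
      refine ⟨?_, fun t ht => ?_⟩
      · intro a ha d hd' had
        rw [mem_Iic] at ha hd'
        have n1 := e1 x y hxy
        have n2 := e1 x b hxb
        have n3 := e1 y b hyb
        interval_cases a <;> interval_cases d <;> first | rfl | (exfalso; simp at had; tauto)
      · interval_cases t
        · exact hxy
        · exact hyb
    have h5 := hcyc 0 _ (cyc_of (k := 0) h4 (by
      change s(b, x) ∈ A
      rw [Sym2.eq_swap]
      exact hxb))
    omega
  have c01 := hc.2 i
  have c12 := hc.2 (i + 1)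
  have c23 := hc.2 (i + 2)
  have c30 := hc.2 (i + 3)
  have a2 : i + 1 + 1 = i + 2 := by rw [add_assoc]; rfl
  have a3 : i + 2 + 1 = i + 3 := by rw [add_assoc]; rfl
  have a4 : i + 3 + 1 = i := by
    rw [add_assoc]
    have : (3 + 1 : Fin (1 + 3)) = 0 := rfl
    rw [this, add_zero]
  rw [a2] at c12
  rw [a3] at c23
  rw [a4] at c30
  rw [hj] at hjb
  refine ⟨hr2, c i, c (i + 1), c (i + 2), c (i + 3), b, ?_, c01, c12, c23, c30, ?_, ?_, ?_, ?_, ?_⟩
  · have d : ∀ x y : Fin (1 + 3), x ≠ y → c (i + x) ≠ c (i + y) := by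
      intro x y hxy h
      exact hxy (add_left_cancel (hc.1 h))
    have d0 : ∀ y : Fin (1 + 3), 0 ≠ y → c i ≠ c (i + y) := by
      intro y hxy h
      have := d 0 y hxy
      rw [add_zero] at this
      exact this h
    have hbn : ∀ x, c x ≠ b := fun x hx => hb ⟨x, hx⟩
    simp only [List.nodup_cons, List.mem_cons, List.not_mem_nil, or_false, not_or,
      List.nodup_nil, and_true, not_false_eq_true]
    exact ⟨⟨d0 1 (by decide), d0 2 (by decide), d0 3 (by decide), hbn _⟩,
      ⟨d 1 2 (by decide), d 1 3 (by decide), hbn _⟩, ⟨d 2 3 (by decide), hbn _⟩, hbn _⟩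
  · rw [Sym2.eq_swap]
    exact hib
  · rw [Sym2.eq_swap]
    exact hjb
  · intro h
    rcases hch _ _ h with h4 | h4
    · rw [a2] at h4
      have := add_left_cancel h4
      revert this
      decide
    · rw [a4] at h4
      have h5 : i + 1 = i + 0 := by rw [add_zero]; exact h4
      have := add_left_cancel h5
      revert this
      decide
  · intro h
    exact tri _ _ c01 hib h
  · intro h
    refine tri _ _ c30 h hib

end Pool.FOT
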